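import Pool.Agent.X153.NE.Eig

/-!
# Neumann eigenvalue ratios with only the inner domain convex: the infimum is zero in the plane

The outer domains are the horns `0 < x < 1`, `|y| < c exp (-K x)` with `2 K c = 1`, the inner ones
the rectangles `0 < x < 1`, `|y| < c exp (-K)`. All Neumann eigenvalues of the horn of index at
least one are at least `K ^ 2 / 30`, the `k`-th one of the rectangle is at most `(k π) ^ 2`.
-/

set_option autoImplicit false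

open Set MeasureTheory Topology

namespace Pool.Agent.Results.MP_770ffc_an.InnerConvexRatioZero

/-- Bounded Lipschitz domains in the plane: bounded connected (nonempty) open sets `Ω` such that
near each boundary point, in suitable orthonormal coordinates `(ξ, η)` (the frame is
`(e₂, -e₁)`, `(e₁, e₂)`), `Ω` is the set `φ ξ < η` above the graph of a Lipschitz function. -/
def IsLipschitzDomain (Ω : Set (ℝ × ℝ)) : Prop :=
  IsOpen Ω ∧ IsConnected Ω ∧ Bornology.IsBounded Ω ∧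
  ∀ p ∈ frontier Ω, ∃ e₁ e₂ : ℝ, e₁ ^ 2 + e₂ ^ 2 = 1 ∧ ∃ U ∈ 𝓝 p, ∃ φ : ℝ → ℝ,
    (∃ L, LipschitzWith L φ) ∧
    ∀ ξ η : ℝ, (ξ * e₂ + η * e₁, -(ξ * e₁) + η * e₂) ∈ U →
      ((ξ * e₂ + η * e₁, -(ξ * e₁) + η * e₂) ∈ Ω ↔ φ ξ < η)

/-- The square `|∇u|²` of the Euclidean norm of the gradient. -/
noncomputable def gradSq (u : ℝ × ℝ → ℝ) (p : ℝ × ℝ) : ℝ :=
  (fderiv ℝ u p (1, 0)) ^ 2 + (fderiv ℝ u p (0, 1)) ^ 2

/-- `u` is in `C¹(Ω) ∩ H¹(Ω)`. -/
def IsSobolev (Ω : Set (ℝ × ℝ)) (u : ℝ × ℝ → ℝ) : Prop :=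
  ContDiffOn ℝ 1 u Ω ∧ IntegrableOn (fun p => u p ^ 2) Ω ∧ IntegrableOn (gradSq u) Ω

/-- `v 0, …, v k` are linearly independent (on `Ω`) functions in `C¹(Ω) ∩ H¹(Ω)`. -/
def IsTrial (k : ℕ) (Ω : Set (ℝ × ℝ)) (v : Fin (k + 1) → ℝ × ℝ → ℝ) : Prop :=
  (∀ i, IsSobolev Ω (v i)) ∧
    ∀ c : Fin (k + 1) → ℝ, (∀ p ∈ Ω, ∑ i, c i * v i p = 0) → c = 0

/-- The `k`-th Neumann eigenvalue `μ_k(Ω)`, by the min-max principle: the infimum over
`(k + 1)`-dimensional subspaces of the largest Rayleigh quotient `∫ |∇u|² / ∫ u²`. -/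
noncomputable def neumann (k : ℕ) (Ω : Set (ℝ × ℝ)) : ℝ :=
  sInf {t | ∃ v, IsTrial k Ω v ∧ ∀ c : Fin (k + 1) → ℝ,
    ∫ p in Ω, gradSq (fun q => ∑ i, c i * v i q) p ≤ t * ∫ p in Ω, (∑ i, c i * v i p) ^ 2}

lemma neumann_eq (k : ℕ) (Ω : Set (ℝ × ℝ)) : neumann k Ω = sInf (X153.NE.rset k Ω) := rfl

lemma horn_isLipschitz {K c : ℝ} (hK : 0 ≤ K) (hc : 0 < c) (hKc : K * c ≤ 1 / 2) :
    IsLipschitzDomain (X153.NE.horn K c) :=
  ⟨X153.NE.horn_open K c, X153.NE.horn_connected hc, X153.NE.horn_bounded hK hc,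
    X153.NE.horn_lip hK hc hKc⟩

/-- The negative answer to Q1, for `d = 2` and every `k ≥ 1`: for every `δ > 0` there are bounded
Lipschitz domains `Ω₁ ⊆ Ω₂` in the plane with `Ω₁` convex and `μ_k(Ω₁) / μ_k(Ω₂) < δ`. So the
infimum `C̃_{k,2}` of these ratios is `0` for every `k ≥ 1`. In addition `μ_k(Ω₁) ≤ (k π)²`. -/
theorem result (k : ℕ) (hk : 1 ≤ k) (δ : ℝ) (hδ : 0 < δ) : ∃ Ω₁ Ω₂ : Set (ℝ × ℝ),
    IsLipschitzDomain Ω₁ ∧ IsLipschitzDomain Ω₂ ∧ Convex ℝ Ω₁ ∧ Ω₁ ⊆ Ω₂ ∧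
    0 ≤ neumann k Ω₁ ∧ neumann k Ω₁ ≤ (k * Real.pi) ^ 2 ∧ 0 < neumann k Ω₂ ∧
    neumann k Ω₁ / neumann k Ω₂ < δ := by
  set A : ℝ := (k * Real.pi) ^ 2 with hA
  have hA0 : 0 < A := by
    have : (0 : ℝ) < k := by exact_mod_cast hk
    positivity
  obtain ⟨K, hK1, hK2⟩ : ∃ K : ℝ, 1 < K ∧ 30 * A / δ < K ^ 2 := by
    refine ⟨30 * A / δ + 2, ?_, ?_⟩
    · have : 0 < 30 * A / δ := by positivity
      linarith
    · have : 0 < 30 * A / δ := by positivity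
      nlinarith
  have hK0 : 0 < K := by linarith
  set c : ℝ := 1 / (2 * K) with hc
  have hc0 : 0 < c := by positivity
  have hKc : K * c ≤ 1 / 2 := by rw [hc]; field_simp; exact le_rfl
  set c' : ℝ := c * Real.exp (-K) with hc'
  have hc'0 : 0 < c' := by positivity
  have hsub : X153.NE.horn 0 c' ⊆ X153.NE.horn K c := by
    rintro ⟨x, y⟩ ⟨h1, h2, h3⟩
    simp only at h1 h2 h3
    refine ⟨h1, h2, ?_⟩
    simp only
    rw [zero_mul, neg_zero, Real.exp_zero, mul_one, hc'] at h3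
    refine h3.trans_le (mul_le_mul_of_nonneg_left (Real.exp_le_exp.2 ?_) hc0.le)
    nlinarith
  have hconv : Convex ℝ (X153.NE.horn 0 c') := by
    have : X153.NE.horn 0 c' = Ioo (0 : ℝ) 1 ×ˢ Ioo (-c') c' := by
      ext ⟨x, y⟩
      simp only [X153.NE.horn, mem_ofPred_eq, zero_mul, neg_zero, Real.exp_zero, mul_one, mem_prod,
        mem_Ioo, abs_lt]
      tauto
    rw [this]
    exact (convex_Ioo 0 1).prod (convex_Ioo (-c') c')
  have ho0 := X153.NE.horn_open 0 c'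
  have hoK := X153.NE.horn_open K c
  have hu0 := X153.NE.upper (K := 0) le_rfl hc'0 k
  rw [Real.exp_zero, mul_one] at hu0
  have b1 : neumann k (X153.NE.horn 0 c') ≤ A := by
    rw [neumann_eq]
    exact csInf_le ⟨0, fun t ht => X153.NE.rset_nonneg ho0 ht⟩ hu0
  have b0 : 0 ≤ neumann k (X153.NE.horn 0 c') := by
    rw [neumann_eq]
    exact le_csInf ⟨_, hu0⟩ fun t ht => X153.NE.rset_nonneg ho0 ht
  have b2 : K ^ 2 / 30 ≤ neumann k (X153.NE.horn K c) := by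
    rw [neumann_eq]
    exact le_csInf ⟨_, X153.NE.upper hK0.le hc0 k⟩ fun t ht =>
      X153.NE.lower hK1 hc0 hKc hk ht
  have hpos : 0 < neumann k (X153.NE.horn K c) := lt_of_lt_of_le (by positivity) b2
  refine ⟨X153.NE.horn 0 c', X153.NE.horn K c, horn_isLipschitz le_rfl hc'0 (by norm_num),
    horn_isLipschitz hK0.le hc0 hKc, hconv, hsub, b0, b1, hpos, ?_⟩
  rw [div_lt_iff₀ hpos]
  rw [div_lt_iff₀ hδ] at hK2
  have : A < δ * (K ^ 2 / 30) := by linarith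
  calc neumann k (X153.NE.horn 0 c') ≤ A := b1
    _ < δ * (K ^ 2 / 30) := this
    _ ≤ δ * neumann k (X153.NE.horn K c) := mul_le_mul_of_nonneg_left b2 hδ.le

end Pool.Agent.Results.MP_770ffc_an.InnerConvexRatioZero
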